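import Mathlib

/-! Project SC (MP_0e6637_co): for every strictly convex norm on a PLANE and every infinite set `M` two colours
suffice to avoid monochromatic isometric copies of `M`. Statements with proofs. Every part is to be proved as
`theorem s_XX : S_XX`, possibly with the parts named in the docstring as hypotheses. -/

namespace Pool.Agent.L7h3.SC
open Filter Topology

/-- `p` is an isometric copy of the sequence `x` -/
def Copy {E : Type} [PseudoMetricSpace E] (x p : ℕ → E) : Prop :=
  ∀ i j, dist (p i) (p j) = dist (x i) (x j)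

/-- Birkhoff orthogonality: the norm is minimal at `a` on the line `a + ℝ w` -/
def Bort {E : Type} [NormedAddCommGroup E] [NormedSpace ℝ E] (a w : E) : Prop :=
  ∀ t : ℝ, ‖a‖ ≤ ‖a + t • w‖

/-- PB (200 lines; set theory, Erdos-Hajnal). Families of countable infinite sets such that every `k`-set is in at
most countably many members have property B. PROOF. Strong induction on the cardinality of `X` (for all `X`, families; `k` fixed). Every member
contains `k`-sets. If `X` is countable: `𝓕` is countable (a union over the finite sets `K` with `k` elements of countable sets);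
enumerate it, choose `a_n, b_n ∈ F_n` different and different from all `a_m, b_m`, `m < n`; the colour of `x` is true iff `x` is
some `a_n` (then `b_n` is not any `a_m`). If `X` is uncountable of cardinality `κ`: take a well-order `r` of `X` of type `κ.ord`
(`Cardinal.ord_eq`), so that all `{y | y ≤ x}` have cardinality `< κ`. For `A ⊆ X` let `cl A = ⋃ A_n`, `A_0 = A`,
`A_{n+1} = A_n ∪ ⋃ {F ∈ 𝓕 | F contains some k-set K ⊆ A_n}`: then `#(cl A) ≤ max (#A) ℵ₀` and every `F ∈ 𝓕` with at least `k` points in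
`cl A` is contained in `cl A`. Let `ρ z` be the least `x` with `z ∈ cl {y | y ≤ x}`, and `Z_x = {z | ρ z = x}`, so `#Z_x < κ`.
For `F ∈ 𝓕` let `x` be the least element such that `cl {y | y ≤ x}` contains `k` points of `F` (it exists: take the maximum of `ρ`
on `k` points). Then `F ⊆ cl {y ≤ x}`, so `ρ ≤ x` on `F`, and fewer than `k` points of `F` have `ρ < x`. So `F ∩ Z_x` is infinite. Apply the
induction hypothesis to the type `Z_x` and the family of the infinite sets among the `F ∩ Z_x`, `F ∈ 𝓕` (a `k`-set in `Z_x` is in countably many of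
them), for every `x`, and put the colourings of the sets `Z_x` together. -/
def S_PB : Prop := ∀ (X : Type) (𝓕 : Set (Set X)) (k : ℕ), (∀ F ∈ 𝓕, F.Infinite ∧ F.Countable) →
  (∀ K : Finset X, K.card = k → {F | F ∈ 𝓕 ∧ (K : Set X) ⊆ F}.Countable) →
  ∃ c : X → Bool, ∀ F ∈ 𝓕, ∃ x ∈ F, ∃ y ∈ F, c x ≠ c y

/-- SUB (150 lines). Choice of a sequence. If some line contains infinitely many points of `M`: first case (in the form of collinearity
of all triples). Otherwise every line contains finitely many points of `M`. If `M` is bounded it has an accumulation point `l`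
(finite-dimensional); choose `x_n ∈ M` recursively with `dist (x_n) l < 1 / (n + 1)`, `x_n ≠ l`, different from the earlier ones and not on any line through two different
points of `{l, x_0, ..., x_{n-1}}`. If `M` is unbounded take `y_n ∈ M` with `‖y_n‖ → ∞` and `y_n / ‖y_n‖` convergent to `u` (compact unit sphere), and choose
`x_n` recursively in `{y_m | m ≥ n}` with `‖x_n‖ ≥ n`, not on any line through two different earlier points; then
`(x_j - x_a) / ‖x_j - x_a‖ → u` for every `a`. -/
def S_SUB : Prop := ∀ (E : Type) [NormedAddCommGroup E] [NormedSpace ℝ E] [FiniteDimensional ℝ E]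
  (M : Set E), M.Infinite → ∃ x : ℕ → E, Function.Injective x ∧ (∀ n, x n ∈ M) ∧
    ((∀ i j k, Collinear ℝ {x i, x j, x k}) ∨
     (∃ l, Tendsto x atTop (𝓝 l) ∧ ∀ i j, i ≠ j → ¬ Collinear ℝ {x i, x j, l}) ∨
     ((∀ a, Tendsto (fun j => dist (x j) (x a)) atTop atTop) ∧
      (∃ u : E, ∀ a, Tendsto (fun j => ‖x j - x a‖⁻¹ • (x j - x a)) atTop (𝓝 u)) ∧
      ∀ i j k, i ≠ j → i ≠ k → j ≠ k → ¬ Collinear ℝ {x i, x j, x k}))

/-- ORT (50 lines). In a strictly convex plane two vectors which are Birkhoff orthogonal to `w ≠ 0` are proportional. If `a ≠ 0`, then `a`, `w` are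
independent (`a = c w` gives `‖a‖ ≤ ‖a - c w‖ = 0`), so `b = r a + m w`. `‖b‖ ≤ ‖b - m w‖ = ‖r a‖ ≤ ‖r a + m w‖ = ‖b‖` (the last inequality: `Bort a w`,
scaled by `r`). So `r a` and `r a + m w` have the same norm, and the midpoint `r a + (m/2) w` has norm at least `‖r a‖`; if `m ≠ 0` this
contradicts strict convexity. -/
def S_ORT : Prop := ∀ (E : Type) [NormedAddCommGroup E] [NormedSpace ℝ E] [StrictConvexSpace ℝ E],
  Module.finrank ℝ E = 2 → ∀ w a b : E, w ≠ 0 → a ≠ 0 → Bort a w → Bort b w → ∃ r : ℝ, b = r • a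

/-- TAN (50 lines). Limits of chords. For fixed `t > 0` and large `n` (`‖z n - z' n‖ ≤ t`) the convex function
`h s = ‖z' n - A + s u_n‖`, `u_n = ‖z n - z' n‖⁻¹ (z n - z' n)`, has `h 0 = h ‖z n - z' n‖`, so `h t ≥ h 0`; for `t ≤ 0` also `h t ≥ h 0`. Let `n → ∞`. -/
def S_TAN : Prop := ∀ (E : Type) [NormedAddCommGroup E] [NormedSpace ℝ E] (z z' : ℕ → E) (l A w : E),
  Tendsto z atTop (𝓝 l) → Tendsto z' atTop (𝓝 l) → (∀ n, z n ≠ z' n) →
  (∀ n, dist (z n) A = dist (z' n) A) →
  Tendsto (fun n => ‖z n - z' n‖⁻¹ • (z n - z' n)) atTop (𝓝 w) → Bort (l - A) w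

/-- COLL (50 lines). In a strictly convex space collinearity of three points depends only on the distances: collinear iff one of the points is
weakly between the two others (`Collinear.wbtw_or_wbtw_or_wbtw`), iff a distance is the sum of the two others
(`dist_add_dist_eq_iff`). -/
def S_COLL : Prop := ∀ (E : Type) [NormedAddCommGroup E] [NormedSpace ℝ E] [StrictConvexSpace ℝ E]
  (a b c a' b' c' : E), dist a' b' = dist a b → dist b' c' = dist b c → dist a' c' = dist a c →
  Collinear ℝ {a, b, c} → Collinear ℝ {a', b', c'}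

/-- UNIQ (50 lines). Two points `c`, `c'` with the same distances from `a ≠ b`, one of them collinear with `a`, `b`: they are equal.
(By COLL both are on the line, on the same side by the additivity of the distances; or directly.) May use `S_COLL`. -/
def S_UNIQ : Prop := ∀ (E : Type) [NormedAddCommGroup E] [NormedSpace ℝ E] [StrictConvexSpace ℝ E]
  (a b c c' : E), a ≠ b → Collinear ℝ {a, b, c} → dist c' a = dist c a → dist c' b = dist c b → c' = c

/-- CIRC (80 lines, from ORT, TAN, COLL, UNIQ). Two different circles have finitely many common points. Otherwise there is an injective sequence of common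
points, converging to `l`, all different from `l` (compactness of the sphere; pass to subsequences), also with `‖z_n - l‖⁻¹ (z_n - l) → w`, `‖w‖ = 1`. By TAN (with `z' n = l`)
`l - P` and `l - Q` are Birkhoff orthogonal to `w`; by ORT they are proportional (if `l = P` the radius is 0, trivial), so `P`, `Q`, `l` are collinear, and
by UNIQ all common points are equal to `l`. -/
def S_CIRC : Prop := ∀ (E : Type) [NormedAddCommGroup E] [NormedSpace ℝ E] [StrictConvexSpace ℝ E],
  Module.finrank ℝ E = 2 → ∀ (P Q : E) (α β : ℝ), P ≠ Q → {z | dist z P = α ∧ dist z Q = β}.Finite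

/-- FIN (50 lines). Sequences with values in countable sets, any two of which differ in finitely many places: countable. (Fix `p₀ ∈ T`; `T` is the
union over the finite sets `u` of the sets of `p ∈ T` equal to `p₀` outside `u`; such a `p` is determined by its
restriction to `u`, which is in a finite product of countable sets.) -/
def S_FIN : Prop := ∀ (E : Type) (T : Set (ℕ → E)) (A : ℕ → Set E), (∀ j, (A j).Countable) →
  (∀ p ∈ T, ∀ j, p j ∈ A j) → (∀ p ∈ T, ∀ p' ∈ T, {j | p j ≠ p' j}.Finite) → T.Countable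

/-- BDD (120 lines, from ORT, TAN, COLL, CIRC, FIN). The convergent case. Take `a ≠ b` in `s`. A copy `p` is a Cauchy sequence; its limit `l'`
has the distances `dist l' (p i) = dist l (x i)`; so it is in the finite set of CIRC for `q a`, `q b`. It suffices to show that the `p` with
a given limit `l'` form a countable set, by FIN with `A j` = the finite set of CIRC for `q a ≠ q b`. Let `p`, `p'` be two of them, and suppose that they
differ for infinitely many `j`. Take a subsequence of such `j` with `‖p j - p' j‖⁻¹ (p j - p' j) → w`, `‖w‖ = 1`. TAN for `A = q a`, `A = q b`: `l' - q a`, `l' - q b` are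
Birkhoff orthogonal to `w`, so proportional by ORT (`l' ≠ q a` as `l ≠ x a`: otherwise `x a, x b, l` collinear), so `q a, q b, l'` are collinear, and
by COLL `x a, x b, l` are collinear, contradiction. -/
def S_BDD : Prop := ∀ (E : Type) [NormedAddCommGroup E] [NormedSpace ℝ E] [StrictConvexSpace ℝ E],
  Module.finrank ℝ E = 2 → ∀ (x : ℕ → E) (l : E), Function.Injective x → Tendsto x atTop (𝓝 l) →
  (∀ i j, i ≠ j → ¬ Collinear ℝ {x i, x j, l}) → ∀ (s : Finset ℕ) (q : ℕ → E), s.card = 3 →
  {p : ℕ → E | Copy x p ∧ ∀ i ∈ s, p i = q i}.Countable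

/-- COL (40 lines, from UNIQ, COLL). The collinear case: a copy is determined by two of its points (subsingleton). -/
def S_COL : Prop := ∀ (E : Type) [NormedAddCommGroup E] [NormedSpace ℝ E] [StrictConvexSpace ℝ E]
  (x : ℕ → E), Function.Injective x → (∀ i j k, Collinear ℝ {x i, x j, x k}) →
  ∀ (s : Finset ℕ) (q : ℕ → E), s.card = 3 → {p : ℕ → E | Copy x p ∧ ∀ i ∈ s, p i = q i}.Countable

/-- DIR (100 lines). Copies have a limit direction. Put `R j = dist (x j) (x a) = dist (p j) (p a)`, `u_j`, `v_j` the unit vectors from `x a` to `x j`, from `p a` to `p j`.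
For `R j ≤ R i`: `‖R_i v_i - R_j v_j‖ = ‖x_i - x_j‖ = ‖(R_i - R_j) u_i + R_j (u_i - u_j)‖ ≤ R_i - R_j + R_j ‖u_i - u_j‖`. With `θ = R_j / R_i`,
`δ = ‖u_i - u_j‖`: `F (-θ) ≤ 1 - (1 - δ) θ`, where `F t = ‖v_i + t v_j‖` is convex, `F 0 = 1`; so `F 1 ≥ 2 - δ`: `‖v_i + v_j‖ ≥ 2 - ‖u_i - u_j‖`.
If `v`, `v'` are two cluster points of `v_j` (compact sphere), take `j` near `v` and then `i` much larger near `v'`: `‖v + v'‖ ≥ 2`, so `v = v'` by strict convexity.
A sequence in a compact set with only one cluster point converges. -/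
def S_DIR : Prop := ∀ (E : Type) [NormedAddCommGroup E] [NormedSpace ℝ E] [FiniteDimensional ℝ E]
  [StrictConvexSpace ℝ E] (x p : ℕ → E) (a : ℕ) (u : E), Copy x p →
  Tendsto (fun j => dist (x j) (x a)) atTop atTop →
  Tendsto (fun j => ‖x j - x a‖⁻¹ • (x j - x a)) atTop (𝓝 u) →
  ∃ v : E, ‖v‖ = 1 ∧ Tendsto (fun j => ‖p j - p a‖⁻¹ • (p j - p a)) atTop (𝓝 v)

/-- HOR (80 lines). Let `ψ⁰_n`, `ψ¹_n` be functionals of norm 1 with `ψ⁰_n (z_n) = ‖z_n‖`, `ψ¹_n (z_n - y) = ‖z_n - y‖` (`exists_dual_vector`). Then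
`‖z_n - y‖ - ‖z_n‖ ≥ -ψ⁰_n y` and `≤ -ψ¹_n y`. Pass to a subsequence (compactness of the unit ball of the dual, finite-dimensional): limits `ψ⁰`, `ψ¹` of norm `≤ 1`, both are
1 at `v` (as `‖z_n‖⁻¹ z_n → v` and `‖z_n - y‖⁻¹ (z_n - y) → v`), and `-ψ⁰ y ≤ c ≤ -ψ¹ y`. A convex combination has the value `-c` at `y`. -/
def S_HOR : Prop := ∀ (E : Type) [NormedAddCommGroup E] [NormedSpace ℝ E] [FiniteDimensional ℝ E]
  (z : ℕ → E) (v y : E) (c : ℝ), Tendsto (fun n => ‖z n‖) atTop atTop →
  Tendsto (fun n => ‖z n‖⁻¹ • z n) atTop (𝓝 v) → Tendsto (fun n => ‖z n - y‖ - ‖z n‖) atTop (𝓝 c) →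
  ∃ ψ : E →L[ℝ] ℝ, ‖ψ‖ ≤ 1 ∧ ψ v = 1 ∧ ψ y = -c

/-- TWO (90 lines). At most two directions. If `|c| = ‖y‖` then `ψ (∓ y / ‖y‖) = 1 = ψ v`, so `v = ∓ y / ‖y‖` by strict convexity (the midpoint has norm `≥ 1`). If
`|c| < ‖y‖`: the functionals `ψ` with `‖ψ‖ = 1`, `ψ y = -c` are at most two: they are on a line in the dual plane, of dimension 2; if three different
points of this line have norm 1, all points of the line have norm at least 1 (convexity), but `(-c / ‖y‖) ψ₀`, where `ψ₀ y = ‖y‖`, `‖ψ₀‖ = 1`, is on it. And `ψ`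
determines `v` (strict convexity). -/
def S_TWO : Prop := ∀ (E : Type) [NormedAddCommGroup E] [NormedSpace ℝ E] [StrictConvexSpace ℝ E],
  Module.finrank ℝ E = 2 → ∀ (y : E) (c : ℝ), y ≠ 0 →
  {v : E | ‖v‖ = 1 ∧ ∃ ψ : E →L[ℝ] ℝ, ‖ψ‖ ≤ 1 ∧ ψ v = 1 ∧ ψ y = -c}.Finite

/-- PER (50 lines). If `‖z‖ = ‖z + s u‖`, `s > 0`, then a minimum point `τ` of the continuous convex function `t ↦ ‖z + t u‖` on `[0, s]` is a minimum point on the line
(outside `[0, s]` the function is at least `‖z‖` by convexity). -/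
def S_PER : Prop := ∀ (E : Type) [NormedAddCommGroup E] [NormedSpace ℝ E] (z u : E) (s : ℝ), 0 < s →
  ‖z‖ = ‖z + s • u‖ → ∃ τ, 0 ≤ τ ∧ τ ≤ s ∧ Bort (z + τ • u) u

/-- OFF (80 lines). Put `Ψ t = ‖e + t u‖`; it is strictly convex (`e`, `u` are independent: `e ≠ 0` and Birkhoff orthogonality) with minimum at 0, so strictly decreasing on
`(-∞, 0]` and strictly increasing on `[0, ∞)`. With `b = τ / α`, `a = (s - τ) / α`, `b' = σ / β`, `a' = (s - σ) / β`: `Ψ (-b) = Ψ a`, `Ψ (-b') = Ψ a'`, `a + b ≤ a' + b'`. If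
`b' < b` then `Ψ a' < Ψ a`, so `a' < a`, contradiction; so `b ≤ b'`, and in the same way `a ≤ a'`. So `0 ≤ b' - b ≤ s / β - s / α`, and
`σ - τ = β (b' - b) - (α - β) b` is between `-(α - β) s / α` and `(α - β) s / α`. -/
def S_OFF : Prop := ∀ (E : Type) [NormedAddCommGroup E] [NormedSpace ℝ E] [StrictConvexSpace ℝ E]
  (e u : E) (s α β τ σ : ℝ), e ≠ 0 → u ≠ 0 → Bort e u → 0 < s → 0 < β → β ≤ α → 0 ≤ τ → τ ≤ s → 0 ≤ σ →
  σ ≤ s → ‖α • e - τ • u‖ = ‖α • e + (s - τ) • u‖ → ‖β • e - σ • u‖ = ‖β • e + (s - σ) • u‖ →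
  |σ - τ| * α ≤ s * (α - β)

/-- PAR (120 lines, from ORT, PER, OFF). Points equidistant from `z n` and `z' n`, which are far away in the same direction `v`, are on `ℝ v`. Put `s = ‖z - z'‖`, `u = s⁻¹ (z - z')`
(`s / ‖z‖ → 0`). PER for `z'` and for `z' - y`: `τ, σ ∈ [0, s]`, `a = z' + τ u`, `b = z' - y + σ u` Birkhoff orthogonal to `u`. For large `n` both are not
0, `e = ‖a‖⁻¹ a → v`; `a = α e`, `α = ‖a‖ ≥ ‖z'‖ - s`, and by ORT `b = β e`, `β / ‖z'‖ → 1`. `y = (α - β) e + (σ - τ) u`, so `|α - β| ≤ ‖y‖` (`Bort e u`). By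
OFF `|σ - τ| ≤ s |α - β| / max α β → 0`. So `y - (α - β) e → 0`, `y - (α - β) v → 0`, and the line `ℝ v` is closed. -/
def S_PAR : Prop := ∀ (E : Type) [NormedAddCommGroup E] [NormedSpace ℝ E] [StrictConvexSpace ℝ E],
  Module.finrank ℝ E = 2 → ∀ (z z' : ℕ → E) (v y : E), (∀ n, z n ≠ z' n) → (∀ n, ‖z n‖ = ‖z' n‖) →
  Tendsto (fun n => ‖z n‖) atTop atTop → Tendsto (fun n => ‖z n‖⁻¹ • z n) atTop (𝓝 v) →
  Tendsto (fun n => ‖z' n‖⁻¹ • z' n) atTop (𝓝 v) → (∀ n, ‖z n - y‖ = ‖z' n - y‖) →
  ∃ r : ℝ, y = r • v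

/-- UNB (120 lines, from DIR, HOR, TWO, PAR, CIRC, FIN, COLL). The case `x j → ∞`. Let `a, b, c` be the elements of `s`. By DIR every `p` in the set has a limit direction `v p` (from `q a`). Fix a
subsequence of `j` (independent of `p`) along which `dist (x j) (x b) - dist (x j) (x a) → c₀` (a bounded sequence). HOR for `z = p j - q a` along it, `y = q b - q a ≠ 0`:
`v p` is in the finite set of TWO. It suffices to show that the `p` with `v p = v` form a countable set, by FIN with `A j` of CIRC for `q a ≠ q b`. If two of them, `p`, `p'`, differ for infinitely many `j`, apply PAR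
along these `j` with `z = p j - q a`, `z' = p' j - q a`, and `y = q b - q a`, `y = q c - q a`: both are in `ℝ v`, so `q a, q b, q c` are collinear, and by COLL `x a, x b, x c` are. -/
def S_UNB : Prop := ∀ (E : Type) [NormedAddCommGroup E] [NormedSpace ℝ E] [StrictConvexSpace ℝ E],
  Module.finrank ℝ E = 2 → ∀ (x : ℕ → E), Function.Injective x →
  (∀ a, Tendsto (fun j => dist (x j) (x a)) atTop atTop) →
  (∃ u : E, ∀ a, Tendsto (fun j => ‖x j - x a‖⁻¹ • (x j - x a)) atTop (𝓝 u)) →
  (∀ i j k, i ≠ j → i ≠ k → j ≠ k → ¬ Collinear ℝ {x i, x j, x k}) →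
  ∀ (s : Finset ℕ) (q : ℕ → E), s.card = 3 → {p : ℕ → E | Copy x p ∧ ∀ i ∈ s, p i = q i}.Countable

/-- KEY (80 lines, from PB). `𝓕` = the sets `range p`, `p` a copy of `x` (injective, so infinite). If `K` has 3 elements and
`K ⊆ range p`, then for some `s` with 3 elements (a finite set of natural numbers, countably many) and some `q` with `q '' s = K` (finitely many on `s`): `p = q` on `s`. -/
def S_KEY : Prop := ∀ (E : Type) [NormedAddCommGroup E] (x : ℕ → E), Function.Injective x →
  (∀ (s : Finset ℕ) (q : ℕ → E), s.card = 3 →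
    {p : ℕ → E | Copy x p ∧ ∀ i ∈ s, p i = q i}.Countable) →
  ∃ c : E → Bool, ∀ p : ℕ → E, Copy x p → ∃ i j, c (p i) ≠ c (p j)

end Pool.Agent.L7h3.SC
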