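import Pool.Agent.L7h3.SC.Main
import Pool.Agent.L7h96.SC.Bdd
import Pool.Agent.L7h96.SC.Par
import Pool.Agent.L7h10.SC.Circ
import Pool.Agent.L7h23.SC.Coll
import Pool.Agent.L7h37.SC.Dir
import Pool.Agent.L7h61.SC.Fin
import Pool.Agent.L7h6.SC.Hor
import Pool.Agent.L7h6.SC.Two
import Pool.Agent.L7h46.SC.Key
import Pool.Agent.L7h46.SC.Pb
import Pool.Agent.L7h70.SC.Off
import Pool.Agent.L7h30.SC.Ort
import Pool.Agent.L7h30.SC.Tan
import Pool.Agent.L7h99.SC.SUB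
import Pool.Agent.L7h64.SC.Unb

/-! Project SC: assembly. -/

namespace Pool.Agent.L7h3.SC

theorem uniq : S_UNIQ := L7h61.SC.s_UNIQ

theorem circ : S_CIRC := L7h10.SC.s_CIRC L7h30.SC.s_ORT L7h30.SC.s_TAN L7h23.SC.s_COLL uniq

theorem par : S_PAR := L7h96.SC.s_PAR L7h30.SC.s_ORT L7h70.SC.s_PER L7h70.SC.s_OFF

theorem bdd : S_BDD := L7h96.SC.s_BDD L7h30.SC.s_ORT L7h30.SC.s_TAN L7h23.SC.s_COLL circ L7h61.SC.s_FIN

theorem unb : S_UNB := L7h64.SC.s_UNB L7h37.SC.s_DIR L7h6.SC.s_HOR L7h6.SC.s_TWO par circ L7h61.SC.s_FIN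
  L7h23.SC.s_COLL

theorem col : S_COL := L7h23.SC.s_COL uniq L7h23.SC.s_COLL

theorem key : S_KEY := L7h46.SC.s_KEY L7h46.SC.s_PB

theorem plane (E : Type) [NormedAddCommGroup E] [NormedSpace ℝ E] [StrictConvexSpace ℝ E]
    (h2 : Module.finrank ℝ E = 2) (M : Set E) (hM : M.Infinite) :
    ∃ c : E → Bool, ∀ f : E → E, (∀ x ∈ M, ∀ y ∈ M, dist (f x) (f y) = dist x y) →
      ∃ x ∈ M, ∃ y ∈ M, c (f x) ≠ c (f y) :=
  main L7h99.SC.s_SUB bdd col unb key E h2 M hM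

theorem line (E : Type) [NormedAddCommGroup E] [NormedSpace ℝ E] [StrictConvexSpace ℝ E]
    (M L : Set E) (hLM : L ⊆ M) (hL : L.Infinite) (hcol : Collinear ℝ L) :
    ∃ c : E → Bool, ∀ f : E → E, (∀ x ∈ M, ∀ y ∈ M, dist (f x) (f y) = dist x y) →
      ∃ x ∈ M, ∃ y ∈ M, c (f x) ≠ c (f y) :=
  main_line col key E M L hLM hL hcol

end Pool.Agent.L7h3.SC
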