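import Pool.Agent.L7h3.SC.Stm

/-! Project SC: the main theorems from the parts. -/

namespace Pool.Agent.L7h3.SC
open Filter Topology

theorem main (hSUB : S_SUB) (hBDD : S_BDD) (hCOL : S_COL) (hUNB : S_UNB) (hKEY : S_KEY)
    (E : Type) [NormedAddCommGroup E] [NormedSpace ℝ E] [StrictConvexSpace ℝ E]
    (h2 : Module.finrank ℝ E = 2) (M : Set E) (hM : M.Infinite) :
    ∃ c : E → Bool, ∀ f : E → E, (∀ x ∈ M, ∀ y ∈ M, dist (f x) (f y) = dist x y) →
      ∃ x ∈ M, ∃ y ∈ M, c (f x) ≠ c (f y) := by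
  haveI : FiniteDimensional ℝ E := Module.finite_of_finrank_pos (by rw [h2]; norm_num)
  obtain ⟨x, hinj, hxM, hx⟩ := hSUB E M hM
  have key : ∀ (s : Finset ℕ) (q : ℕ → E), s.card = 3 →
      {p : ℕ → E | Copy x p ∧ ∀ i ∈ s, p i = q i}.Countable := by
    rcases hx with h | ⟨l, hl, h⟩ | ⟨h1, h3, h⟩
    · exact hCOL E x hinj h
    · exact hBDD E h2 x l hinj hl h
    · exact hUNB E h2 x hinj h1 h3 h
  obtain ⟨c, hc⟩ := hKEY E x hinj key
  refine ⟨c, fun f hf => ?_⟩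
  obtain ⟨i, j, hij⟩ := hc (fun n => f (x n)) (fun i j => hf _ (hxM i) _ (hxM j))
  exact ⟨x i, hxM i, x j, hxM j, hij⟩

theorem main_line (hCOL : S_COL) (hKEY : S_KEY)
    (E : Type) [NormedAddCommGroup E] [NormedSpace ℝ E] [StrictConvexSpace ℝ E]
    (M L : Set E) (hLM : L ⊆ M) (hL : L.Infinite) (hcol : Collinear ℝ L) :
    ∃ c : E → Bool, ∀ f : E → E, (∀ x ∈ M, ∀ y ∈ M, dist (f x) (f y) = dist x y) →
      ∃ x ∈ M, ∃ y ∈ M, c (f x) ≠ c (f y) := by
  let e := hL.natEmbedding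
  have hinj : Function.Injective (fun n => (e n : E)) :=
    Subtype.val_injective.comp e.injective
  have hxL : ∀ n, (e n : E) ∈ L := fun n => (e n).2
  obtain ⟨c, hc⟩ := hKEY E (fun n => (e n : E)) hinj (hCOL E _ hinj fun i j k =>
    hcol.subset (by
      rintro z (rfl | rfl | rfl)
      · exact hxL i
      · exact hxL j
      · exact hxL k))
  refine ⟨c, fun f hf => ?_⟩
  obtain ⟨i, j, hij⟩ := hc (fun n => f (e n)) (fun i j => hf _ (hLM (hxL i)) _ (hLM (hxL j)))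
  exact ⟨e i, hLM (hxL i), e j, hLM (hxL j), hij⟩

end Pool.Agent.L7h3.SC
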